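import Mathlib
import Pool.Agent.H46.Integral
import Pool.Agent.H46.Rate.MainK

set_option autoImplicit false

namespace Pool.Agent.Results.MP_edeaa2_an.CubicRate

/-- A logarithmic rate in the conjecture of Cassels and Swinnerton-Dyer in dimension three, if one or
two of the forms span a space which is invariant under an integer matrix `T` with irreducible
characteristic polynomial. -/
theorem result :
    ∀ g : Matrix (Fin 3) (Fin 3) ℝ, g.det ≠ 0 →
      ∀ T : Matrix (Fin 3) (Fin 3) ℤ, Irreducible (T.map (Int.cast : ℤ → ℚ)).charpoly →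
      ∀ I : Finset (Fin 3), I.Nonempty → I ≠ Finset.univ →
      (∀ i ∈ I, Matrix.vecMul (g i) (T.map (Int.cast : ℤ → ℝ))
        ∈ Submodule.span ℝ (g '' (I : Set (Fin 3)))) →
      (¬ ∃ c : ℝ, c ≠ 0 ∧ ∀ m : Fin 3 →₀ ℕ, ∃ z : ℤ,
          MvPolynomial.coeff m
            (c • (∏ i : Fin 3, ∑ j : Fin 3,
              MvPolynomial.C (g i j) * MvPolynomial.X j : MvPolynomial (Fin 3) ℝ)) = (z : ℝ)) →
      ∃ C : ℝ, ∀ R : ℝ, ∃ x : Fin 3 → ℤ, R ≤ ‖x‖ ∧
        |∏ i : Fin 3, ∑ j : Fin 3, g i j * (x j : ℝ)| * Real.log ‖x‖ ≤ C := by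
  intro g hg T hT I hI0 hI1 hinv hnot
  rcases Pool.Agent.H46.Rate.cubic_rate g hg T hT I hI0 hI1 hinv with h | ⟨lam, hlam, heig⟩
  · exact h
  · exact absurd (Pool.Agent.H46.integral_of_eigen 3 g hg T lam hlam heig) hnot

end Pool.Agent.Results.MP_edeaa2_an.CubicRate
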