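import Mathlib
import Pool.Agent.H46.PF.Main

set_option autoImplicit false

namespace Pool.Agent.Results.MP_edeaa2_an.LargeDimension

/-- For all large `d`, every product of `d` linearly independent real linear forms in `d` variables (the
rows of `g`) takes a value of modulus at most `7.7 ^ (-d) * |det g|` at some nonzero integer vector. -/
theorem result :
    ∃ d₀ : ℕ, ∀ d : ℕ, d₀ ≤ d → ∀ g : Matrix (Fin d) (Fin d) ℝ, g.det ≠ 0 →
      ∃ x : Fin d → ℤ, x ≠ 0 ∧
        |∏ i : Fin d, ∑ j : Fin d, g i j * (x j : ℝ)| * (77 / 10) ^ d ≤ |g.det| :=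
  Pool.Agent.H46.PF.main

end Pool.Agent.Results.MP_edeaa2_an.LargeDimension
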